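import Pool.Agent.Helper48_LPY.Stmts

/-!
# Squad LPY: module ANA (solution of the recursion).
-/

set_option autoImplicit false

namespace Pool.Agent.LPY.H11

/-- The error function. -/
noncomputable def hh (k : ℕ) : ℝ := (1 + Real.log k) ^ 4

lemma hh_one_le (k : ℕ) (hk : 1 ≤ k) : 1 ≤ hh k := by
  have h1 : (1 : ℝ) ≤ k := by exact_mod_cast hk
  have h2 : 0 ≤ Real.log k := Real.log_nonneg h1
  exact one_le_pow₀ (by linarith)

lemma err_small (c : ℝ) (hc : 0 ≤ c) :
    ∃ k₁ : ℕ, ∀ k : ℕ, k₁ ≤ k → c * (Real.log k + 3) ^ 3 ≤ k / 32 := by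
  have h1 := Real.isLittleO_pow_log_id_atTop (n := 3)
  have h2 := (h1.comp_tendsto tendsto_natCast_atTop_atTop).bound
    (c := 1 / (32 * 64 * (c + 1))) (by positivity)
  obtain ⟨k₁, hk₁⟩ := Filter.eventually_atTop.mp h2
  refine ⟨max k₁ 3, fun k hk => ?_⟩
  have h3 := hk₁ k (le_trans (le_max_left _ _) hk)
  have h4 : 3 ≤ k := le_trans (le_max_right _ _) hk
  have hk3 : (3 : ℝ) ≤ k := by exact_mod_cast h4
  have hlog : 1 ≤ Real.log k := by
    rw [Real.le_log_iff_exp_le (by linarith)]
    have := Real.exp_one_lt_d9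
    linarith
  simp only [Function.comp, Real.norm_eq_abs, id] at h3
  rw [abs_of_nonneg (by positivity), abs_of_nonneg (by positivity)] at h3
  have h5 : (Real.log k + 3) ^ 3 ≤ 64 * Real.log k ^ 3 := by
    calc (Real.log k + 3) ^ 3 ≤ (4 * Real.log k) ^ 3 :=
          pow_le_pow_left₀ (by linarith) (by linarith) 3
      _ = 64 * Real.log k ^ 3 := by ring
  calc c * (Real.log k + 3) ^ 3 ≤ (c + 1) * (64 * Real.log k ^ 3) :=
        mul_le_mul (by linarith) h5 (by positivity) (by linarith)
    _ ≤ (c + 1) * (64 * (1 / (32 * 64 * (c + 1)) * k)) := by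
        have : (0 : ℝ) ≤ (c + 1) * 64 := by positivity
        nlinarith
    _ = k / 32 := by
        field_simp

/-- ANA. -/
theorem ana : AnaStmt := by
  intro Q k₀ c hQ hR
  obtain ⟨c', hc', hcc⟩ : ∃ c' : ℝ, 0 ≤ c' ∧ c ≤ c' := ⟨max c 0, le_max_right _ _, le_max_left _ _⟩
  obtain ⟨k₁, hk₁⟩ := err_small c' hc'
  obtain ⟨C, hC1, hC2⟩ : ∃ C : ℝ, 864 * c' ≤ C ∧ ((k₀ + k₁ + 1 : ℕ) : ℝ) ≤ C :=
    ⟨max (864 * c') ((k₀ + k₁ + 1 : ℕ) : ℝ), le_max_left _ _, le_max_right _ _⟩
  refine ⟨C, fun k => ?_⟩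
  have hC0 : 0 ≤ C := le_trans (by positivity) hC2
  induction k using Nat.strong_induction_on with
  | _ k ih =>
    intro hk
    have hkr : (1 : ℝ) ≤ k := by exact_mod_cast hk
    have hlog : 0 ≤ Real.log k := Real.log_nonneg hkr
    by_cases hbig : k < k₀ + k₁ + 1
    · refine ⟨2 * k, hQ k, ?_⟩
      have h1 := hh_one_le k hk
      have h2 : (k : ℝ) ≤ ((k₀ + k₁ + 1 : ℕ) : ℝ) := by exact_mod_cast hbig.le
      have h3 : (k : ℝ) ≤ C * hh k := by
        calc (k : ℝ) ≤ C * 1 := by linarith
          _ ≤ C * hh k := mul_le_mul_of_nonneg_left h1 hC0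
      have h4 : ((2 * k : ℕ) : ℝ) = 2 * k := by push_cast; ring
      rw [h4]
      change 2 * (k : ℝ) ≤ k + C * hh k
      linarith
    · push Not at hbig
      obtain ⟨q, err, hq1, hq2, herr, hrec⟩ := hR k (by omega)
      have herr' : (err : ℝ) ≤ c' * (Real.log k + 3) ^ 3 :=
        herr.trans (mul_le_mul_of_nonneg_right hcc (by positivity))
      have herr1 : (err : ℝ) ≤ k / 32 := herr'.trans (hk₁ k (by omega))
      have herr2 : (err : ℝ) ≤ 27 * c' * (1 + Real.log k) ^ 3 := by
        refine herr'.trans ?_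
        have h1 : (Real.log k + 3) ^ 3 ≤ 27 * (1 + Real.log k) ^ 3 := by
          calc (Real.log k + 3) ^ 3 ≤ (3 * (1 + Real.log k)) ^ 3 :=
                pow_le_pow_left₀ (by linarith) (by linarith) 3
            _ = 27 * (1 + Real.log k) ^ 3 := by ring
        calc c' * (Real.log k + 3) ^ 3 ≤ c' * (27 * (1 + Real.log k) ^ 3) :=
              mul_le_mul_of_nonneg_left h1 hc'
          _ = 27 * c' * (1 + Real.log k) ^ 3 := by ring
      have hq1r : (k : ℝ) ≤ 16 * q := by exact_mod_cast hq1
      have hk' : ((k - q + err : ℕ) : ℝ) = k - q + err := by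
        push_cast [Nat.cast_sub hq2]
        ring
      have hle : ((k - q + err : ℕ) : ℝ) ≤ 31 / 32 * k := by
        rw [hk']
        linarith
      by_cases h0 : k - q + err = 0
      · refine ⟨q + 0, hrec 0 ?_, ?_⟩
        · rw [h0]
          exact hQ 0
        · have h1 : (q : ℝ) ≤ k := by exact_mod_cast hq2
          have h2 : 0 ≤ C * hh k := mul_nonneg hC0 (le_trans zero_le_one (hh_one_le k hk))
          rw [add_zero]
          change (q : ℝ) ≤ k + C * hh k
          linarith
      · have hlt : k - q + err < k := by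
          have : ((k - q + err : ℕ) : ℝ) < k := by linarith
          exact_mod_cast this
        obtain ⟨n, hn1, hn2⟩ := ih _ hlt (by omega)
        refine ⟨q + n, hrec n hn1, ?_⟩
        change (n : ℝ) ≤ ((k - q + err : ℕ) : ℝ) + C * hh (k - q + err) at hn2
        change ((q + n : ℕ) : ℝ) ≤ k + C * hh k
        have hh1 : hh (k - q + err) + (1 + Real.log k) ^ 3 / 32 ≤ hh k := by
          unfold hh
          have h1 : (1 : ℝ) ≤ ((k - q + err : ℕ) : ℝ) := by
            exact_mod_cast (by omega : 1 ≤ k - q + err)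
          have h2 : 0 ≤ Real.log ((k - q + err : ℕ) : ℝ) := Real.log_nonneg h1
          have h3 : Real.log ((k - q + err : ℕ) : ℝ) ≤ Real.log k - 1 / 32 := by
            have h4 : Real.log ((k - q + err : ℕ) : ℝ) ≤ Real.log (31 / 32 * k) :=
              Real.log_le_log (by linarith) hle
            rw [Real.log_mul (by norm_num) (by linarith)] at h4
            have h5 : Real.log (31 / 32 : ℝ) ≤ 31 / 32 - 1 :=
              Real.log_le_sub_one_of_pos (by norm_num)
            linarith
          generalize Real.log ((k - q + err : ℕ) : ℝ) = x at h2 h3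
          generalize Real.log (k : ℝ) = y at h3 hlog
          have e1 : (1 + y) ^ 4 - (1 + x) ^ 4 =
            (y - x) * (((1 + y) + (1 + x)) * ((1 + y) ^ 2 + (1 + x) ^ 2)) := by ring
          have e2 : (1 + y) ^ 3 ≤ ((1 + y) + (1 + x)) * ((1 + y) ^ 2 + (1 + x) ^ 2) := by
            have : (1 + y) ^ 3 = (1 + y) * (1 + y) ^ 2 := by ring
            rw [this]
            exact mul_le_mul (by linarith) (by nlinarith [sq_nonneg (1 + x)]) (by positivity)
              (by linarith)
          have e3 : 1 / 32 * (1 + y) ^ 3 ≤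
              (y - x) * (((1 + y) + (1 + x)) * ((1 + y) ^ 2 + (1 + x) ^ 2)) :=
            mul_le_mul (by linarith) e2 (by positivity) (by linarith)
          linarith
        have hh2 := mul_le_mul_of_nonneg_left hh1 hC0
        have hh3 : 864 * c' * ((1 + Real.log k) ^ 3 / 32) ≤ C * ((1 + Real.log k) ^ 3 / 32) :=
          mul_le_mul_of_nonneg_right hC1 (by positivity)
        rw [hk'] at hn2
        push_cast
        nlinarith

end Pool.Agent.LPY.H11
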