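import Pool.Agent.Helper48_LPY.Stmts
import Pool.Agent.Helper48_LPY.Basic

/-!
# Squad LPY: module MARF (the probability that a node is flexible).
-/

set_option autoImplicit false

namespace Pool.Agent.LPY.H11

open Pool.Agent.LAX Pool.Agent.LPY

lemma cnt_unif {Ω β : Type} [Fintype Ω] [Fintype β] (S : Set Ω) (f : Ω → β)
    (h : ∀ b b' : β, ∃ e : Ω → Ω, Function.Injective e ∧
      ∀ ω ∈ S, f ω = b → e ω ∈ S ∧ f (e ω) = b') (b : β) :
    Fintype.card β * {ω | ω ∈ S ∧ f ω = b}.ncard = S.ncard := by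
  classical
  have h2 : ∀ b b', {ω | ω ∈ S ∧ f ω = b}.ncard ≤ {ω | ω ∈ S ∧ f ω = b'}.ncard := by
    intro b b'
    obtain ⟨e, he, h3⟩ := h b b'
    rw [← Set.ncard_image_of_injective _ he]
    refine Set.ncard_le_ncard ?_ (Set.toFinite _)
    rintro _ ⟨ω, ⟨h4, h5⟩, rfl⟩
    exact h3 ω h4 h5
  have h3 : S.ncard = ∑ b', {ω | ω ∈ S ∧ f ω = b'}.ncard := by
    rw [Set.ncard_eq_toFinset_card',
      Finset.card_eq_sum_card_fiberwise (f := f) (t := Finset.univ) (fun _ _ => Finset.mem_univ _)]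
    refine Finset.sum_congr rfl fun b' _ => ?_
    rw [Set.ncard_eq_toFinset_card']
    congr 1
    ext ω
    simp
  rw [h3, Finset.sum_congr rfl (fun b' _ => le_antisymm (h2 b' b) (h2 b b'))]
  simp

section cnt

variable {V : Type} [Fintype V] [DecidableEq V] {σ : Equiv.Perm V} {a : ℕ} (B : BS σ (2 ^ a))

/-- shift of all labels -/
def shl (d : Lab) (ω : V → Om a) : V → Om a := fun u => ((ω u).1, (ω u).2.1, (ω u).2.2 + d)

lemma shl_inj (d : Lab) : Function.Injective (shl (V := V) (a := a) d) := by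
  intro ω ω' h
  funext u
  have h1 := congrFun h u
  simp only [shl, Prod.mk.injEq] at h1
  obtain ⟨h2, h3, h4⟩ := h1
  exact Prod.ext h2 (Prod.ext h3 (add_right_cancel h4))

lemma tl_shl (d : Lab) (ω : V → Om a) (v : V) : tl B (shl d ω) v = tl B ω v + d := by
  unfold tl shl
  split_ifs <;> rfl

lemma isEnd_shl (d : Lab) (ω : V → Om a) (v : V) : isEnd B (shl d ω) v ↔ isEnd B ω v := Iff.rfl

/-- exchange two marks at `v` -/
def swm (v : V) (b b' : Fin (2 ^ (a - 5))) (ω : V → Om a) : V → Om a :=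
  fun u => (if u = v then Equiv.swap b b' (ω u).1 else (ω u).1, (ω u).2)

lemma swm_swm (v : V) (b b' : Fin (2 ^ (a - 5))) (ω : V → Om a) :
    swm v b b' (swm v b b' ω) = ω := by
  funext u
  simp only [swm]
  split_ifs <;> simp

lemma swm_inj (v : V) (b b' : Fin (2 ^ (a - 5))) : Function.Injective (swm (a := a) v b b') :=
  Function.LeftInverse.injective (swm_swm v b b')

/-- exchange two offsets at `v` -/
def swo (v : V) (b b' : Fin (2 ^ (a - 1))) (ω : V → Om a) : V → Om a :=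
  fun u => ((ω u).1, if u = v then Equiv.swap b b' (ω u).2.1 else (ω u).2.1, (ω u).2.2)

lemma swo_swo (v : V) (b b' : Fin (2 ^ (a - 1))) (ω : V → Om a) :
    swo v b b' (swo v b b' ω) = ω := by
  funext u
  simp only [swo]
  split_ifs <;> simp

lemma swo_inj (v : V) (b b' : Fin (2 ^ (a - 1))) : Function.Injective (swo (a := a) v b b') :=
  Function.LeftInverse.injective (swo_swo v b b')

/-- the labels are uniform -/
lemma cnt_lab (S : Set (V → Om a)) (hS : ∀ d ω, ω ∈ S → shl d ω ∈ S) (v : V) (i : Lab) :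
    4096 * {ω | ω ∈ S ∧ tl B ω v = i}.ncard = S.ncard := by
  have h := cnt_unif S (fun ω => tl B ω v) (fun b b' => ⟨shl (b' - b), shl_inj _,
    fun ω h1 h2 => ⟨hS _ _ h1, by
      rw [tl_shl, h2]
      abel⟩⟩) i
  rwa [ZMod.card] at h

/-- the mark at `v` is uniform -/
lemma cnt_mark (S : Set (V → Om a)) (v : V) (hS : ∀ b b' ω, ω ∈ S → swm v b b' ω ∈ S)
    (m : Fin (2 ^ (a - 5))) :
    2 ^ (a - 5) * {ω | ω ∈ S ∧ (ω v).1 = m}.ncard = S.ncard := by
  have h := cnt_unif S (fun ω => (ω v).1) (fun b b' => ⟨swm v b b', swm_inj _ _ _,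
    fun ω h1 h2 => ⟨hS _ _ _ h1, by simp [swm, h2]⟩⟩) m
  rwa [Fintype.card_fin] at h

/-- the offset at `v` is uniform -/
lemma cnt_off (v : V) (m : Fin (2 ^ (a - 1))) :
    2 ^ (a - 1) * {ω : V → Om a | (ω v).2.1 = m}.ncard = Fintype.card (V → Om a) := by
  have h := cnt_unif (Set.univ : Set (V → Om a)) (fun ω => (ω v).2.1)
    (fun b b' => ⟨swo v b b', swo_inj _ _ _, fun ω _ h2 => ⟨Set.mem_univ _, by simp [swo, h2]⟩⟩) m
  rw [Fintype.card_fin, Set.ncard_univ, Nat.card_eq_fintype_card] at h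
  rw [← h]
  simp

/-- the mark zero -/
def z0 (a : ℕ) : Fin (2 ^ (a - 5)) := ⟨0, by positivity⟩

lemma val_eq_zero (x : Fin (2 ^ (a - 5))) : (x : ℕ) = 0 ↔ x = z0 a := by
  rw [Fin.ext_iff]
  rfl

/-- the mark at `v` is zero and the label is `i` -/
def SA (v : V) (i : Lab) : Set (V → Om a) := {ω | (ω v).1 = z0 a ∧ tl B ω v = i}

lemma cnt_SA (v : V) (i : Lab) :
    4096 * (2 ^ (a - 5) * (SA B v i).ncard) = Fintype.card (V → Om a) := by
  have h1 := cnt_lab B {ω | (ω v).1 = z0 a} (fun d ω h => h) v i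
  have h2 := cnt_mark (Set.univ : Set (V → Om a)) v (fun _ _ _ _ => Set.mem_univ _) (z0 a)
  simp only [Set.mem_univ, true_and, Set.ncard_univ, Nat.card_eq_fintype_card] at h2
  have h3 : {ω | ω ∈ {ω : V → Om a | (ω v).1 = z0 a} ∧ tl B ω v = i} = SA B v i := rfl
  rw [h3] at h1
  rw [← h2, ← h1]
  ring

lemma cnt_SA_mark (v w : V) (hw : w ≠ v) (i : Lab) :
    4096 * (2 ^ (a - 5) * (2 ^ (a - 5) * {ω | ω ∈ SA B v i ∧ (ω w).1 = z0 a}.ncard)) =
      Fintype.card (V → Om a) := by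
  have h0 := cnt_mark (Set.univ : Set (V → Om a)) w (fun _ _ _ _ => Set.mem_univ _) (z0 a)
  simp only [Set.mem_univ, true_and, Set.ncard_univ, Nat.card_eq_fintype_card] at h0
  have h1 := cnt_mark {ω : V → Om a | (ω w).1 = z0 a} v (fun b b' ω h => by
    simp only [Set.mem_setOf_eq, swm, if_neg hw] at h ⊢
    exact h) (z0 a)
  have h2 := cnt_lab B {ω | ω ∈ {ω : V → Om a | (ω w).1 = z0 a} ∧ (ω v).1 = z0 a}
    (fun d ω h => h) v i
  have h3 : {ω | ω ∈ {ω | ω ∈ {ω : V → Om a | (ω w).1 = z0 a} ∧ (ω v).1 = z0 a} ∧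
      tl B ω v = i} = {ω | ω ∈ SA B v i ∧ (ω w).1 = z0 a} := by
    ext ω
    simp only [SA, Set.mem_setOf_eq]
    tauto
  rw [h3] at h2
  rw [← h0, ← h1, ← h2]
  ring

lemma cnt_end (u : V) : 2 ^ (a - 1) * {ω | isEnd B ω u}.ncard ≤ Fintype.card (V → Om a) := by
  by_cases h : B.bk u < 2 ^ (a - 1)
  · have h1 := cnt_off (a := a) (B.st u) ⟨B.bk u, h⟩
    have h2 : {ω : V → Om a | (ω (B.st u)).2.1 = ⟨B.bk u, h⟩} = {ω | isEnd B ω u} := by
      ext ω
      simp only [Set.mem_setOf_eq, isEnd, Fin.ext_iff]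
      exact eq_comm
    rw [h2] at h1
    exact h1.le
  · have h2 : {ω | isEnd B ω u} = ∅ := by
      ext ω
      simp only [Set.mem_setOf_eq, isEnd, Set.mem_empty_iff_false, iff_false]
      intro h3
      exact h (h3 ▸ ((ω (B.st u)).2.1).2)
    rw [h2]
    simp

lemma cnt_SA_end (v u : V) (i : Lab) :
    4096 * (2 ^ (a - 5) * (2 ^ (a - 1) * {ω | ω ∈ SA B v i ∧ isEnd B ω u}.ncard)) ≤
      Fintype.card (V → Om a) := by
  have h0 := cnt_end B u
  have h1 := cnt_mark {ω : V → Om a | isEnd B ω u} v (fun b b' ω h => h) (z0 a)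
  have h2 := cnt_lab B {ω | ω ∈ {ω : V → Om a | isEnd B ω u} ∧ (ω v).1 = z0 a}
    (fun d ω h => h) v i
  have h3 : {ω | ω ∈ {ω | ω ∈ {ω : V → Om a | isEnd B ω u} ∧ (ω v).1 = z0 a} ∧
      tl B ω v = i} = {ω | ω ∈ SA B v i ∧ isEnd B ω u} := by
    ext ω
    simp only [SA, Set.mem_setOf_eq]
    tauto
  rw [h3] at h2
  refine le_trans (le_of_eq ?_) h0
  rw [← h1, ← h2]
  ring

end cnt

/-- MARF. -/
theorem marf (_hL : LocStmt) : MarfStmt := by
  intro V _ _ σ a B ha hC p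
  obtain ⟨v, i⟩ := p
  set N := Fintype.card (V → Om a) with hN
  have hSA := cnt_SA B v i
  rw [← hN] at hSA
  have ep : (2 : ℝ) ^ (a + 10) = 2 ^ 15 * 2 ^ (a - 5) := by
    rw [← pow_add]
    congr 1
    omega
  have hSAr : (4096 : ℝ) * (2 ^ (a - 5) * (SA B v i).ncard) = N := by exact_mod_cast hSA
  have hSAe : ((SA B v i).ncard : ℝ) = 8 / 7 * rr a * N := by
    unfold rr
    rw [ep, ← hSAr]
    have : (2 : ℝ) ^ (a - 5) ≠ 0 := by positivity
    field_simp
    ring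
  have hsub : {ω | (v, i) ∈ FL B ω} ⊆ SA B v i := by
    rintro ω ⟨h1, h2⟩
    exact ⟨(val_eq_zero _).mp h1.1, h2⟩
  have hle : ({ω | (v, i) ∈ FL B ω}.ncard : ℝ) ≤ (SA B v i).ncard := by
    exact_mod_cast Set.ncard_le_ncard hsub (Set.toFinite _)
  refine ⟨?_, by rw [← hSAe]; exact hle⟩
  -- lower bound
  set J : ℕ := 2 ^ (a - 10) with hJ
  have hJa : J < 2 ^ a := Nat.pow_lt_pow_right (by norm_num) (by omega)
  let M1 : ℕ → Set (V → Om a) := fun j => {ω | ω ∈ SA B v i ∧ (ω ((σ ^ (j + 1)) v)).1 = z0 a}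
  let M2 : ℕ → Set (V → Om a) := fun j => {ω | ω ∈ SA B v i ∧ (ω ((σ⁻¹ ^ (j + 1)) v)).1 = z0 a}
  let E1 : ℕ → Set (V → Om a) := fun j => {ω | ω ∈ SA B v i ∧ isEnd B ω ((σ ^ j) v)}
  let E2 : ℕ → Set (V → Om a) := fun j => {ω | ω ∈ SA B v i ∧ isEnd B ω ((σ⁻¹ ^ j) v)}
  have hcov : SA B v i ⊆ {ω | (v, i) ∈ FL B ω} ∪ ((⋃ j ∈ Finset.range J, M1 j) ∪
      ((⋃ j ∈ Finset.range J, M2 j) ∪ ((⋃ j ∈ Finset.range (J + 1), E1 j) ∪
        (⋃ j ∈ Finset.range (J + 1), E2 j)))) := by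
    intro ω hω
    by_contra hcon
    simp only [Set.mem_union, not_or, Set.mem_iUnion, not_exists, Finset.mem_range] at hcon
    obtain ⟨h1, h2, h3, h4, h5⟩ := hcon
    apply h1
    refine ⟨⟨(val_eq_zero _).mpr hω.1, ?_, ?_⟩, hω.2⟩
    · intro j hj1 hj2
      constructor
      · intro h6
        refine h2 (j - 1) (by omega) ⟨hω, ?_⟩
        rw [show j - 1 + 1 = j by omega]
        exact (val_eq_zero _).mp h6
      · intro h6
        refine h3 (j - 1) (by omega) ⟨hω, ?_⟩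
        rw [show j - 1 + 1 = j by omega]
        exact (val_eq_zero _).mp h6
    · intro j hj
      exact ⟨fun h6 => h4 j (by omega) ⟨hω, h6⟩, fun h6 => h5 j (by omega) ⟨hω, h6⟩⟩
  have key : ∀ (s : Finset ℕ) (f : ℕ → Set (V → Om a)) (c : ℝ), (∀ j ∈ s, ((f j).ncard : ℝ) ≤ c) →
      ((⋃ j ∈ s, f j).ncard : ℝ) ≤ s.card * c := by
    intro s f c h
    have h1 : (⋃ j ∈ s, f j).ncard ≤ ∑ j ∈ s, (f j).ncard := by
      induction s using Finset.induction_on with
      | empty => simp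
      | insert j s hj ih =>
        rw [Finset.set_biUnion_insert, Finset.sum_insert hj]
        exact (Set.ncard_union_le _ _).trans
          (Nat.add_le_add_left (ih fun j hj => h j (Finset.mem_insert_of_mem hj)) _)
    calc ((⋃ j ∈ s, f j).ncard : ℝ) ≤ ((∑ j ∈ s, (f j).ncard : ℕ) : ℝ) := by exact_mod_cast h1
      _ = ∑ j ∈ s, ((f j).ncard : ℝ) := by push_cast; rfl
      _ ≤ ∑ j ∈ s, c := Finset.sum_le_sum h
      _ = s.card * c := by simp
  set A0 : ℝ := ((SA B v i).ncard : ℝ) with hA0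
  have hA0n : 0 ≤ A0 := by positivity
  have hm1 : ∀ w, w ≠ v → (({ω | ω ∈ SA B v i ∧ (ω w).1 = z0 a}.ncard : ℕ) : ℝ) ≤
      A0 / 2 ^ (a - 5) := by
    intro w hw
    have h := cnt_SA_mark B v w hw i
    rw [← hN, ← hSA] at h
    have h1 : 2 ^ (a - 5) * {ω | ω ∈ SA B v i ∧ (ω w).1 = z0 a}.ncard = (SA B v i).ncard := by
      have := Nat.eq_of_mul_eq_mul_left (by norm_num) h
      exact Nat.eq_of_mul_eq_mul_left (by positivity) this
    rw [le_div_iff₀ (by positivity), hA0, ← h1]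
    push_cast
    linarith
  have he1 : ∀ u, (({ω | ω ∈ SA B v i ∧ isEnd B ω u}.ncard : ℕ) : ℝ) ≤ A0 / 2 ^ (a - 1) := by
    intro u
    have h := cnt_SA_end B v u i
    rw [← hN, ← hSA] at h
    have h1 : 2 ^ (a - 1) * {ω | ω ∈ SA B v i ∧ isEnd B ω u}.ncard ≤ (SA B v i).ncard := by
      have := Nat.le_of_mul_le_mul_left h (by norm_num)
      exact Nat.le_of_mul_le_mul_left this (by positivity)
    rw [le_div_iff₀ (by positivity), hA0]
    have h2 : ((2 ^ (a - 1) * {ω | ω ∈ SA B v i ∧ isEnd B ω u}.ncard : ℕ) : ℝ) ≤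
      (SA B v i).ncard := by exact_mod_cast h1
    push_cast at h2
    linarith
  have hM1 := key (Finset.range J) M1 (A0 / 2 ^ (a - 5)) (fun j hj => hm1 _ (by
    have := Finset.mem_range.mp hj
    exact hC (j + 1) v (by omega) (by omega)))
  have hM2 := key (Finset.range J) M2 (A0 / 2 ^ (a - 5)) (fun j hj => hm1 _ (by
    have := Finset.mem_range.mp hj
    intro h6
    apply hC (j + 1) v (by omega) (by omega)
    rw [inv_pow, Equiv.Perm.inv_eq_iff_eq] at h6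
    exact h6.symm))
  have hE1 := key (Finset.range (J + 1)) E1 (A0 / 2 ^ (a - 1)) (fun j _ => he1 _)
  have hE2 := key (Finset.range (J + 1)) E2 (A0 / 2 ^ (a - 1)) (fun j _ => he1 _)
  have hcovr : A0 ≤ ({ω | (v, i) ∈ FL B ω}.ncard : ℝ) + ((⋃ j ∈ Finset.range J, M1 j).ncard +
      ((⋃ j ∈ Finset.range J, M2 j).ncard + ((⋃ j ∈ Finset.range (J + 1), E1 j).ncard +
        (⋃ j ∈ Finset.range (J + 1), E2 j).ncard))) := by
    have h1 := Set.ncard_le_ncard hcov (Set.toFinite _)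
    have h2 := h1.trans ((Set.ncard_union_le _ _).trans (Nat.add_le_add_left
      ((Set.ncard_union_le _ _).trans (Nat.add_le_add_left ((Set.ncard_union_le _ _).trans
        (Nat.add_le_add_left (Set.ncard_union_le _ _) _)) _)) _))
    rw [hA0]
    exact_mod_cast h2
  rw [Finset.card_range] at hM1 hM2 hE1 hE2
  have ej : (J : ℝ) * (A0 / 2 ^ (a - 5)) = A0 / 32 := by
    have : (2 : ℝ) ^ (a - 5) = 2 ^ 5 * 2 ^ (a - 10) := by
      rw [← pow_add]
      congr 1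
      omega
    rw [this, hJ]
    push_cast
    have : (2 : ℝ) ^ (a - 10) ≠ 0 := by positivity
    field_simp
    norm_num
  have ee : ((J + 1 : ℕ) : ℝ) * (A0 / 2 ^ (a - 1)) ≤ A0 / 256 := by
    have h1 : (2 : ℝ) ^ (a - 1) = 2 ^ 9 * 2 ^ (a - 10) := by
      rw [← pow_add]
      congr 1
      omega
    have h2 : ((J + 1 : ℕ) : ℝ) ≤ 2 * 2 ^ (a - 10) := by
      rw [hJ]
      push_cast
      have : (1 : ℝ) ≤ 2 ^ (a - 10) := one_le_pow₀ (by norm_num)
      linarith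
    have h3 : (0 : ℝ) < 2 ^ (a - 10) := by positivity
    calc ((J + 1 : ℕ) : ℝ) * (A0 / 2 ^ (a - 1)) ≤ (2 * 2 ^ (a - 10)) * (A0 / 2 ^ (a - 1)) :=
          mul_le_mul_of_nonneg_right h2 (by positivity)
      _ = A0 / 256 := by
          rw [h1]
          field_simp
          ring
  have hrr : rr a * N = 7 / 8 * A0 := by
    rw [hSAe]
    ring
  rw [hrr]
  rw [ej] at hM1 hM2
  linarith

end Pool.Agent.LPY.H11
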